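import Pool.Agent.R153.Hook2Dist
import Pool.Agent.R153.Hook2Odd

set_option autoImplicit false

namespace Pool.Agent.Results.MP_d17fc5_co.WeightedHookBias

open Finset Pool.Agent.R153.Hook2 Pool.Agent.R153.QS

/-- The number of partitions of `n` into odd parts, all parts at most `2 L - 1`, which have
exactly `m` cells of hook length `2`. -/
noncomputable def a₂ (L m n : ℕ) : ℕ :=
  ((Finset.univ : Finset n.Partition).filter (fun p =>
    (∀ x ∈ p.parts, Odd x) ∧ (∀ x ∈ p.parts, x ≤ 2 * L - 1) ∧ hooks2 p = m)).card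

/-- The number of partitions of `n` into distinct parts, all parts at most `L`, which have
exactly `m` cells of hook length `2`. -/
noncomputable def b₂ (L m n : ℕ) : ℕ :=
  ((Finset.univ : Finset n.Partition).filter (fun p =>
    p.parts.Nodup ∧ (∀ x ∈ p.parts, x ≤ L) ∧ hooks2 p = m)).card

/-- `A_L(n)`, the sum over `m` of `(m choose 2) * a₂ L m n` (a partition of `n` has `n` cells, so
that the terms with `m > n` vanish). -/
noncomputable def A (L n : ℕ) : ℕ := ∑ m ∈ range (n + 1), m.choose 2 * a₂ L m n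

/-- `B_L(n)`, the sum over `m` of `(m choose 2) * b₂ L m n`. -/
noncomputable def B (L n : ℕ) : ℕ := ∑ m ∈ range (n + 1), m.choose 2 * b₂ L m n

theorem card_young {n : ℕ} (p : n.Partition) : (young p).card = n := by
  have hpos : ∀ x ∈ p.parts.sort (· ≥ ·), 0 < x := by
    intro x hx
    rw [Multiset.mem_sort] at hx
    exact p.parts_pos hx
  have h : ∀ (w : List ℕ) (hw : w.SortedGE), (YoungDiagram.ofRowLens w hw).card = w.sum := by
    intro w
    unfold YoungDiagram.card
    intro hw
    change (YoungDiagram.cellsOfRowLens w).card = w.sum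
    clear hw
    induction w with
    | nil => rfl
    | cons a w ih =>
      rw [YoungDiagram.cellsOfRowLens, Finset.card_union_of_disjoint, Finset.card_map, ih,
        Finset.card_product, Finset.card_singleton, Finset.card_range, List.sum_cons, one_mul]
      rw [Finset.disjoint_left]
      rintro ⟨i, j⟩ h1 h2
      rw [Finset.mem_product, Finset.mem_singleton] at h1
      rw [Finset.mem_map] at h2
      obtain ⟨⟨k, l⟩, -, h3⟩ := h2
      have h4 := (Prod.mk.inj h3).1
      simp only at h1
      have h5 := h1.1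
      simp at h4
      omega
  unfold young
  rw [h]
  have := congrArg Multiset.sum (Multiset.sort_eq p.parts (· ≥ ·))
  rw [Multiset.sum_coe, p.parts_sum] at this
  exact this

theorem hooks2_le {n : ℕ} (p : n.Partition) : hooks2 p ≤ n := by
  unfold hooks2
  refine (Finset.card_filter_le _ _).trans (le_of_eq ?_)
  exact card_young p

theorem sum_eq {n : ℕ} (s : Finset n.Partition) :
    ∑ m ∈ range (n + 1), m.choose 2 * (s.filter (fun p => hooks2 p = m)).card =
      ∑ p ∈ s, (hooks2 p).choose 2 := by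
  have h1 : ∀ p ∈ s, (hooks2 p).choose 2 =
      ∑ m ∈ range (n + 1), (if hooks2 p = m then m.choose 2 else 0) := by
    intro p _
    rw [Finset.sum_ite_eq, if_pos]
    rw [Finset.mem_range]
    have := hooks2_le p
    omega
  rw [Finset.sum_congr rfl h1, Finset.sum_comm]
  apply Finset.sum_congr rfl
  intro m _
  rw [← Finset.sum_filter, Finset.sum_const, smul_eq_mul, mul_comm]

theorem A_eq (L n : ℕ) : A L n = ∑ p ∈ OP L n, (hooks2 p).choose 2 := by
  rw [← sum_eq]
  unfold A
  apply Finset.sum_congr rfl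
  intro m _
  congr 1
  unfold a₂
  congr 1
  ext p
  rw [Finset.mem_filter, Finset.mem_filter, mem_OP]
  constructor
  · rintro ⟨-, h1, h2, h3⟩
    exact ⟨fun x hx => ⟨h1 x hx, h2 x hx⟩, h3⟩
  · rintro ⟨h1, h3⟩
    exact ⟨Finset.mem_univ _, fun x hx => (h1 x hx).1, fun x hx => (h1 x hx).2, h3⟩

theorem B_eq (L n : ℕ) : (B L n : ℚ) = PowerSeries.coeff n (W 2 L) := by
  rw [coeff_W, ← sum_eq]
  unfold B
  congr 1
  apply Finset.sum_congr rfl
  intro m _
  congr 1
  unfold b₂
  congr 1
  ext p
  rw [Finset.mem_filter, Finset.mem_filter, Finset.mem_filter]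
  constructor
  · rintro ⟨-, h1, h2, h3⟩
    exact ⟨⟨Finset.mem_univ _, h1, h2⟩, h3⟩
  · rintro ⟨⟨-, h1, h2⟩, h3⟩
    exact ⟨Finset.mem_univ _, h1, h2, h3⟩

/-- For every positive integer `L` and every `n`, `A_L(n) ≥ B_L(n)`. -/
theorem result (L : ℕ) (hL : 0 < L) (n : ℕ) : B L n ≤ A L n := by
  have hq : (B L n : ℚ) ≤ (A L n : ℚ) := by
    rw [B_eq, A_eq]
    rcases Nat.lt_or_ge L 4 with h | h
    · rw [W_two_small (by omega), map_zero]
      positivity
    · obtain ⟨k, rfl⟩ : ∃ k, L = k + 4 := ⟨L - 4, by omega⟩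
      refine le_trans ?_ (sum_lower (k + 4) n (k + 1) (by omega))
      rw [W_two_eq]
      have h1 := main (k + 1) (k + 4) (by omega)
      rw [Nat.add_sub_cancel] at h1
      have h2 := (NN.X_pow 5).mul h1
      rw [mul_sub] at h2
      exact nn_sub_iff.1 h2 n
  exact_mod_cast hq

end Pool.Agent.Results.MP_d17fc5_co.WeightedHookBias
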